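import Pool.Agent.Lib.Kneser.Quot

/-!
# Campaign HB (MP_249d2a_co): restricted Harborth constants of Z_q x Z_n, n large

Common definitions.  `stab`, `fs`, `qim` are those of `Pool.Agent.Lib.Kneser`:
`stab C` = stabiliser of a finset, `fs H` = the finset of elements of a subgroup,
`qim H A` = image of `A` in `G ⧸ H`.
-/

set_option autoImplicit false

open Finset
open scoped Pointwise

namespace Pool.Agent.HB

open Pool.Agent.Kneser

section
variable {G : Type*} [AddCommGroup G]

/-- No `n` distinct elements of `A` have sum `0`. -/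
def ZF (n : ℕ) (A : Finset G) : Prop := ∀ B ⊆ A, B.card = n → ∑ x ∈ B, x ≠ 0

/-- `x` is the sum of `m` distinct elements of `A`. -/
def RS (m : ℕ) (A : Finset G) (x : G) : Prop := ∃ B ⊆ A, B.card = m ∧ ∑ y ∈ B, y = x

/-- The largest size of a subset of `G` without `n` distinct elements of sum `0`. -/
noncomputable def tau (G : Type*) [AddCommGroup G] [Fintype G] (n : ℕ) : ℕ :=
  sSup {k | ∃ A : Finset G, A.card = k ∧ ZF n A}

/-- `m`-fold sumset. -/
def ms [DecidableEq G] (m : ℕ) (B : Finset G) : Finset G := ∑ _i ∈ range m, B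

/-- `B` is not contained in a coset of a proper subgroup. -/
def AGen (B : Finset G) : Prop := ∀ K : AddSubgroup G, (∀ x ∈ B, ∀ y ∈ B, x - y ∈ K) → K = ⊤

/-- The quotient by `K` is cyclic. -/
def CycQ (K : AddSubgroup G) : Prop := ∃ x : G, ∀ y : G, ∃ k : ℕ, y - k • x ∈ K

/-- The only multiset of `m` elements of `C` with sum `0` is `{0, ..., 0}`. -/
def UZ (m : ℕ) (C : Finset G) : Prop :=
  ∀ s : Multiset G, s.card = m → (∀ x ∈ s, x ∈ C) → s.sum = 0 → ∀ x ∈ s, x = 0

/-- All differences of distinct elements of `M` are distinct. -/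
def Sidon (M : Finset G) : Prop :=
  ∀ a ∈ M, ∀ b ∈ M, ∀ c ∈ M, ∀ d ∈ M, a - b = c - d → a ≠ b → a = c

end

/-- The divisors which matter. -/
def Dset (q n : ℕ) : Finset ℕ := n.divisors.filter fun d => q + 2 ≤ d ∧ 2 ≤ d % q

/-- The value of the divisor `d`. -/
def fv (q d : ℕ) : ℕ := (d - 2 + (if q.minFac * (d % q) < q then 1 else 0)) / (d / q)

section
variable {G : Type*} [AddCommGroup G] [Fintype G] [DecidableEq G]

/-- Admissible sets for the isoperimetric problem of `B`. -/
def Adm (B X : Finset G) : Prop := 2 ≤ X.card ∧ (X + B).card + 2 ≤ Fintype.card G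

/-- Fragments: admissible `X` with `|X + B| - |X|` minimal. -/
def Frag (B X : Finset G) : Prop :=
  Adm B X ∧ ∀ Y, Adm B Y → (X + B).card + Y.card ≤ (Y + B).card + X.card

/-- Atoms: fragments of minimal size. -/
def Atom (B M : Finset G) : Prop := Frag B M ∧ ∀ F, Frag B F → M.card ≤ F.card

/-- The conclusion of the isoperimetric lemma: `B` is an arithmetic progression whose difference
generates `G`, or `B` has few holes with respect to a subgroup `K`. -/
def Concl (B : Finset G) : Prop :=
  (∃ b x : G, AddSubgroup.zmultiples x = ⊤ ∧ B = (range B.card).image fun i => b + i • x) ∨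
  ∃ K : AddSubgroup G, 2 ≤ (fs K).card ∧ (B + fs K).card < Fintype.card G ∧
    (B + fs K).card + 1 ≤ B.card + (fs K).card

/-- The conclusion of Lemma S: a cyclic quotient of order `d` and the number `l = d / q`. -/
def SC (q m : ℕ) (G : Type*) [AddCommGroup G] : Prop :=
  ∃ (K : AddSubgroup G) (l : ℕ), 1 ≤ l ∧ CycQ K ∧ K.index < q * (l + 1) ∧
    (m * l + 2 ≤ K.index ∨
      (m * l + 1 = K.index ∧ ∃ e, 2 ≤ e ∧ e ∣ Nat.card K ∧ e * (K.index - q * l) < q))

/-- The set of elements `a` of `A` such that `2 a` has at most `k` representations in `A + A`. -/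
def Ex (k : ℕ) (A : Finset G) : Finset G :=
  A.filter fun a => ((A ×ˢ A).filter fun p => p.1 + p.2 = a + a).card ≤ k

end

/-- The level of an element of `Z_q x Z_n` with respect to the divisor `d` of `n`. -/
def lev {q n : ℕ} (d : ℕ) (g : ZMod q × ZMod n) : ℕ := g.2.val % d

end Pool.Agent.HB
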