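import Pool.Agent.Lib.MP_249d2a_co.HB.Defs

/-!
# TASK HB F1: when is there a divisor d of n with d ≥ q + 2, d mod q ≥ 2

PROOF of `dset_prime_pow`.  `q = p ^ c`, `c ≥ 2`, `n' = n / p ^ a` with `a = n.factorization p ≥ c`, `p` does not divide `n'` (`Nat.not_dvd_ordCompl`), `n' ≥ p + 1`.  `d = p ^ (c - 1) * n'`
divides `n`; `d ≥ p ^ (c - 1) (p + 1) = q + p ^ (c - 1) ≥ q + 2`; `p ^ (c - 1)` divides `d % q`, and `q` does not divide `d`, so `d % q ≥ p ^ (c - 1) ≥ 2`.

PROOF of `dset_of_not_primePow`.  `C = (q + 1) ^ (q + 2) + 1`.  `n ≥ C`.  `n = ∏_{p ∈ n.primeFactors} p ^ (n.factorization p)` (`Nat.factorization_prod_pow_eq_self`).  If all these prime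
powers are `≤ q + 1`, then all primes of `n` are `≤ q + 1`, and `n ≤ (q + 1) ^ (q + 2) < C`.  So there is a prime `p` with `P := p ^ (n.factorization p) ≥ q + 2`, `P ∣ n`.
 * `p ∣ q`: `d = P`.  `gcd d q = p ^ (q.factorization p)` (because `n.factorization p ≥ q.factorization p`) `=: g`, `1 < g < q` (`q` is not a prime power).  `g ∣ d % q`, and `q ∤ d` (otherwise
   `gcd d q = q`), so `d % q ≥ g ≥ 2`.
 * `p ∤ q`: let `u = p1 ^ (q.factorization p1)` with `p1 = q.minFac`, `q = u v`, `u, v ≥ 2`.  `d = u P` divides `n` (`u ∣ q ∣ n`, `u` and `P` coprime), `d ≥ 2 (q + 2)`, `gcd d q = u gcd (P, v) = u < q`, so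
   `q ∤ d` and `u ∣ d % q`, `d % q ≥ u ≥ 2`.
-/

set_option autoImplicit false

open Finset

namespace Pool.Agent.HB

private theorem F1_mod {q d g : ℕ} (hg : 2 ≤ g) (h1 : g ∣ q) (h2 : g ∣ d) (h3 : ¬ q ∣ d) : 2 ≤ d % q := by
  have h4 : g ∣ d % q := (Nat.dvd_mod_iff h1).2 h2
  have h5 : 0 < d % q := by
    rw [Nat.pos_iff_ne_zero]
    intro h
    exact h3 (Nat.dvd_of_mod_eq_zero h)
  exact hg.trans (Nat.le_of_dvd h5 h4)

private theorem F1_mem {q n d : ℕ} (hn : n ≠ 0) (h1 : d ∣ n) (h2 : q + 2 ≤ d) (h3 : 2 ≤ d % q) :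
    (Dset q n).Nonempty := by
  refine ⟨d, ?_⟩
  unfold Dset
  rw [Finset.mem_filter, Nat.mem_divisors]
  exact ⟨⟨h1, hn⟩, h2, h3⟩

/-- A large number has a large prime power in its factorization. -/
private theorem F1_big {q n : ℕ} (hn : (q + 1) ^ (q + 2) + 1 ≤ n) :
    ∃ p, p.Prime ∧ q + 2 ≤ p ^ (n.factorization p) := by
  by_contra hcon
  push Not at hcon
  have hn0 : n ≠ 0 := by omega
  have h1 : ∀ p ∈ n.factorization.support, p ^ (n.factorization p) ≤ q + 1 := by
    intro p hp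
    have hpp : p.Prime := Nat.prime_of_mem_primeFactors (by rwa [Nat.support_factorization] at hp)
    have := hcon p hpp
    omega
  have h2 : n.factorization.support ⊆ Finset.range (q + 2) := by
    intro p hp
    rw [Finset.mem_range]
    have h3 := h1 p hp
    have h4 : n.factorization p ≠ 0 := Finsupp.mem_support_iff.1 hp
    have hpp : p.Prime := Nat.prime_of_mem_primeFactors (by rwa [Nat.support_factorization] at hp)
    have h5 : p ≤ p ^ (n.factorization p) := Nat.le_self_pow h4 p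
    omega
  have h6 : n.factorization.prod (· ^ ·) = n := Nat.prod_factorization_pow_eq_self hn0
  have h7 : n.factorization.prod (· ^ ·) ≤ (q + 1) ^ n.factorization.support.card := by
    unfold Finsupp.prod
    exact Finset.prod_le_pow_card _ _ _ h1
  have h8 : (q + 1) ^ n.factorization.support.card ≤ (q + 1) ^ (q + 2) := by
    refine Nat.pow_le_pow_right (Nat.succ_pos q) ?_
    have := Finset.card_le_card h2
    rwa [Finset.card_range] at this
  rw [h6] at h7
  omega

theorem dset_prime_pow {p c n : ℕ} (hp : p.Prime) (hc : 2 ≤ c) (hn : n ≠ 0) (h : p ^ c ∣ n)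
    (h' : p < n / p ^ (n.factorization p)) : (Dset (p ^ c) n).Nonempty := by
  have hp2 := hp.two_le
  have hca : c ≤ n.factorization p := (hp.pow_dvd_iff_le_factorization hn).1 h
  have hnd : ¬ p ∣ n / p ^ (n.factorization p) := Nat.not_dvd_ordCompl hp hn
  have hmul : p ^ (n.factorization p) * (n / p ^ (n.factorization p)) = n :=
    Nat.ordProj_mul_ordCompl_eq_self n p
  generalize n / p ^ (n.factorization p) = n' at h' hnd hmul
  obtain ⟨c', rfl⟩ : ∃ c', c = c' + 1 := ⟨c - 1, by omega⟩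
  have hc' : 1 ≤ c' := by omega
  have hg : 2 ≤ p ^ c' := hp2.trans (Nat.le_self_pow (by omega) p)
  refine F1_mem hn (d := p ^ c' * n') ?_ ?_ ?_
  · rw [← hmul]
    exact mul_dvd_mul_right (pow_dvd_pow p (by omega)) n'
  · rw [pow_succ]
    nlinarith
  · refine F1_mod hg (pow_dvd_pow p (by omega)) (dvd_mul_right _ _) ?_
    intro hd
    rw [pow_succ] at hd
    exact hnd (Nat.dvd_of_mul_dvd_mul_left (by omega) hd)

theorem dset_of_not_primePow {q : ℕ} (hq : 4 ≤ q) (h : ¬ IsPrimePow q) :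
    ∃ C : ℕ, ∀ n, C ≤ n → q ∣ n → (Dset q n).Nonempty := by
  refine ⟨(q + 1) ^ (q + 2) + 1, fun n hn hqn => ?_⟩
  have hn0 : n ≠ 0 := by omega
  have hq0 : q ≠ 0 := by omega
  obtain ⟨p, hp, hP⟩ := F1_big hn
  have hp2 := hp.two_le
  have hPn : p ^ (n.factorization p) ∣ n := Nat.ordProj_dvd n p
  -- a divisor of a prime power
  have hnot : ∀ r k : ℕ, r.Prime → ¬ q ∣ r ^ k := by
    intro r k hr hd
    obtain ⟨j, -, hj⟩ := (Nat.dvd_prime_pow hr).1 hd
    apply h
    rw [isPrimePow_nat_iff]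
    refine ⟨r, j, hr, ?_, hj.symm⟩
    rw [Nat.pos_iff_ne_zero]
    rintro rfl
    rw [pow_zero] at hj
    omega
  by_cases hpq : p ∣ q
  · have hb : 1 ≤ q.factorization p := (hp.pow_dvd_iff_le_factorization hq0).1 (by rwa [pow_one])
    have hab : q.factorization p ≤ n.factorization p :=
      (Nat.factorization_le_iff_dvd hq0 hn0).2 hqn p
    refine F1_mem hn0 hPn hP (F1_mod (g := p ^ (q.factorization p)) ?_ (Nat.ordProj_dvd q p)
      (pow_dvd_pow p hab) (hnot p _ hp))
    exact hp2.trans (Nat.le_self_pow (by omega) p)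
  · have hp1 : q.minFac.Prime := Nat.minFac_prime (by omega)
    have hp1q : q.minFac ∣ q := Nat.minFac_dvd q
    have hb : 1 ≤ q.factorization q.minFac :=
      (hp1.pow_dvd_iff_le_factorization hq0).1 (by rwa [pow_one])
    have huq : q.minFac ^ (q.factorization q.minFac) ∣ q := Nat.ordProj_dvd q q.minFac
    have hu2 : 2 ≤ q.minFac ^ (q.factorization q.minFac) :=
      hp1.two_le.trans (Nat.le_self_pow (by omega) _)
    have hne : q.minFac ≠ p := fun he => hpq (he ▸ hp1q)
    have hcop : Nat.Coprime (q.minFac ^ (q.factorization q.minFac)) (p ^ (n.factorization p)) :=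
      Nat.Coprime.pow _ _ ((Nat.coprime_primes hp1 hp).2 hne)
    have hcopq : Nat.Coprime q (p ^ (n.factorization p)) :=
      Nat.Coprime.pow_right _ (((Nat.Prime.coprime_iff_not_dvd hp).2 hpq).symm)
    refine F1_mem hn0 (hcop.mul_dvd_of_dvd_of_dvd (huq.trans hqn) hPn) ?_
      (F1_mod hu2 huq (dvd_mul_right _ _) ?_)
    · nlinarith
    · intro hd
      exact hnot _ _ hp1 (hcopq.dvd_of_dvd_mul_right hd)

end Pool.Agent.HB
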