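import Pool.Agent.Lib.MP_249d2a_co.Mg.G005
import Pool.Agent.Lib.MP_249d2a_co.Mg.G007
import Pool.Agent.Lib.MP_249d2a_co.HB.F1

/-!
# TASK HB F2: the value of tau

PROOF of `main_A`.  `C` = maximum of the constants of `upper`, `lower_d`, `lower_e` and `1`.  `M = (Dset q n).sup (fv q)`.  `M = fv q d0` for some `d0 ∈ Dset q n`
(`Finset.exists_mem_eq_sup`), `q ≤ M` (`le_fv`, `Finset.le_sup`), `M ≤ 2 q - 2` (`fv_le`).
Lower bound: `M = q`: `lower_e`; `M ≥ q + 1`: `lower_d` for `d0`.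
Upper bound: `tau_le_of_RS` with `m = M`: let `|A| = n + (M + 1)`; if not `RS (M + 1) A (∑ A)`, then `upper` (`q + 1 ≤ M + 1 ≤ 2 q`) gives `d ∈ Dset q n` with
`M + 1 ≤ fv q d ≤ M`.

PROOF of `main_B`.  `Dset q n = ∅`.  `C` = maximum of the constant of `upper` and `2 q`.  Lower bound `lower_c`.  Upper bound `tau ≤ n + q`: `tau_le_of_RS` with `m = q`, and `upper`
with `m = q + 1` (no `d`).
-/

set_option autoImplicit false

open Finset

namespace Pool.Agent.HB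

theorem main_A {q : ℕ} (hq : 4 ≤ q) : ∃ C : ℕ, ∀ (n : ℕ) [NeZero q] [NeZero n], C ≤ n → q ∣ n →
    (Dset q n).Nonempty → tau (ZMod q × ZMod n) n = n + (Dset q n).sup (fv q) := by
  obtain ⟨C1, h1⟩ := upper hq
  obtain ⟨C2, h2⟩ := lower_d hq
  obtain ⟨C3, h3⟩ := lower_e hq
  refine ⟨max C1 (max C2 (max C3 1)), ?_⟩
  intro n _ _ hC hqn hne
  have hC1 : C1 ≤ n := (le_max_left _ _).trans hC
  have hC2 : C2 ≤ n := ((le_max_left _ _).trans (le_max_right _ _)).trans hC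
  have hC3 : C3 ≤ n := (((le_max_left _ _).trans (le_max_right _ _)).trans (le_max_right _ _)).trans hC
  have hC4 : 1 ≤ n := (((le_max_right _ _).trans (le_max_right _ _)).trans (le_max_right _ _)).trans hC
  obtain ⟨d0, hd0, hM⟩ := Finset.exists_mem_eq_sup (Dset q n) hne (fv q)
  have hle : ∀ d ∈ Dset q n, fv q d ≤ (Dset q n).sup (fv q) := fun d hd => Finset.le_sup (f := fv q) hd
  obtain ⟨M, hMd⟩ : ∃ M, M = (Dset q n).sup (fv q) := ⟨_, rfl⟩
  rw [← hMd] at hM hle ⊢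
  have hq1 : q ≤ M := by rw [hM]; exact le_fv hq hd0
  have hq2 : M ≤ 2 * q - 2 := by rw [hM]; exact fv_le hq hd0
  apply le_antisymm
  · apply tau_le_of_RS hC4
    intro A hA
    by_contra hRS
    obtain ⟨d, hd, hfd⟩ := h1 n hC1 hqn (M + 1) (by omega) (by omega) A hA hRS
    have := hle d hd
    omega
  · rcases Nat.eq_or_lt_of_le hq1 with h4 | h4
    · rw [← h4]
      exact h3 n hC3 hqn hne
    · rw [hM]
      exact h2 n hC2 d0 hd0 (by omega)

theorem main_B {q : ℕ} (hq : 4 ≤ q) : ∃ C : ℕ, ∀ (n : ℕ) [NeZero q] [NeZero n], C ≤ n → q ∣ n →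
    ¬ (Dset q n).Nonempty → n + q - 1 ≤ tau (ZMod q × ZMod n) n ∧
      tau (ZMod q × ZMod n) n ≤ n + q := by
  obtain ⟨C1, h1⟩ := upper hq
  refine ⟨max C1 (2 * q), ?_⟩
  intro n _ _ hC hqn hne
  have hC1 : C1 ≤ n := (le_max_left _ _).trans hC
  have hC2 : 2 * q ≤ n := (le_max_right _ _).trans hC
  constructor
  · have h2 := lower_c (q := q) (n := n) (by omega) hqn hC2
    rw [Nat.add_sub_assoc (by omega)]
    exact h2
  · apply tau_le_of_RS (by omega)
    intro A hA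
    by_contra hRS
    obtain ⟨d, hd, _⟩ := h1 n hC1 hqn (q + 1) le_rfl (by omega) A hA hRS
    exact hne ⟨d, hd⟩

end Pool.Agent.HB
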